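import Pool.Agent.H211.AD.Stm
import Pool.Graph.R_seed8.W746.LD.Koebe

/-! Task MEAS of project AD (helper211), by helper44: the measure lemma. -/

set_option autoImplicit false

open Metric Set MeasureTheory Filter Topology
open scoped ENNReal

namespace Pool.Agent.H44.AD211

open Pool.Agent.H211.AD
open Pool.Agent.W746.LD (Univ KC exists_KC)

/-- the derivative as a real linear map -/
noncomputable def dd (Φ : ℂ → ℂ) (w : ℂ) : ℂ →L[ℝ] ℂ :=
  (ContinuousLinearMap.smulRight (1 : ℂ →L[ℂ] ℂ) (deriv Φ w)).restrictScalars ℝ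

theorem dd_det (Φ : ℂ → ℂ) (w : ℂ) : |(dd Φ w).det| = ‖deriv Φ w‖ ^ 2 := by
  have h : (dd Φ w).det = ‖deriv Φ w‖ ^ 2 := by
    unfold ContinuousLinearMap.det
    rw [← LinearMap.det_toMatrix Complex.basisOneI, Matrix.det_fin_two,
      ← Complex.normSq_eq_norm_sq, Complex.normSq_apply]
    simp [LinearMap.toMatrix_apply, dd]
  rw [h, abs_of_nonneg (by positivity)]

theorem dd_has {Φ : ℂ → ℂ} {w : ℂ} (h : DifferentiableAt ℂ Φ w) : HasFDerivAt Φ (dd Φ w) w :=
  h.hasDerivAt.hasFDerivAt.restrictScalars ℝ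

/-- the iterates are differentiable -/
theorem iter_diff {f : ℂ → ℂ} {U : Set ℂ} (hU : IsOpen U) (hf : DifferentiableOn ℂ f U) (n : ℕ)
    {z : ℂ} (hz : ∀ i < n, f^[i] z ∈ U) : DifferentiableAt ℂ f^[n] z := by
  induction n with
  | zero => exact differentiableAt_id
  | succ n ih =>
    rw [Function.iterate_succ']
    exact (hf.differentiableAt (hU.mem_nhds (hz n (Nat.lt_succ_self n)))).comp z
      (ih fun i hi => hz i (Nat.lt_succ_of_lt hi))

theorem br_inj {f : ℂ → ℂ} {U : Set ℂ} {n : ℕ} {y : ℂ} {R : ℝ} {g : ℂ → ℂ}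
    (hg : IsBr f U n y R g) : InjOn g (ball y R) := by
  intro a ha b hb hab
  rw [← (hg.2 a ha).2, ← (hg.2 b hb).2, hab]

theorem br_univ {f : ℂ → ℂ} {U : Set ℂ} {n : ℕ} {y : ℂ} {R : ℝ} {g : ℂ → ℂ}
    (hg : IsBr f U n y R g) : Univ g y R := ⟨hg.1, br_inj hg⟩

/-- the derivative of a branch -/
theorem br_deriv {f : ℂ → ℂ} {U : Set ℂ} (hU : IsOpen U) (hf : DifferentiableOn ℂ f U) {n : ℕ}
    {y : ℂ} {R : ℝ} {g : ℂ → ℂ} (hg : IsBr f U n y R g) {x : ℂ} (hx : x ∈ ball y R) :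
    deriv f^[n] (g x) * deriv g x = 1 := by
  have h1 : DifferentiableAt ℂ g x := hg.1.differentiableAt (isOpen_ball.mem_nhds hx)
  have h2 : DifferentiableAt ℂ f^[n] (g x) := iter_diff hU hf n (hg.2 x hx).1
  have h3 : HasDerivAt (f^[n] ∘ g) (deriv f^[n] (g x) * deriv g x) x :=
    h2.hasDerivAt.comp x h1.hasDerivAt
  have h4 : f^[n] ∘ g =ᶠ[𝓝 x] id := by
    filter_upwards [isOpen_ball.mem_nhds hx] with u hu
    exact (hg.2 u hu).2
  have h5 : HasDerivAt (f^[n] ∘ g) 1 x := (hasDerivAt_id x).congr_of_eventuallyEq h4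
  exact h3.unique h5

/-- the area of the image of a set -/
theorem image_le {g : ℂ → ℂ} {y : ℂ} {ρ B : ℝ} (hρ : 0 < ρ)
    (hg : DifferentiableOn ℂ g (ball y ρ))
    (hd : ∀ w : ℂ, ‖w - y‖ ≤ ρ / 4 → ‖deriv g w‖ ≤ B) {Z : Set ℂ} (hZ : Z ⊆ closedBall y (ρ / 4)) :
    volume (g '' Z) ≤ ENNReal.ofReal (B ^ 2) * volume Z := by
  set Z' : Set ℂ := toMeasurable volume Z ∩ closedBall y (ρ / 4) with hZ'
  have hm : MeasurableSet Z' :=
    (measurableSet_toMeasurable _ _).inter isClosed_closedBall.measurableSet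
  have hsub : Z ⊆ Z' := subset_inter (subset_toMeasurable _ _) hZ
  have hvol : volume Z' ≤ volume Z := by
    rw [← measure_toMeasurable Z]
    exact measure_mono inter_subset_left
  have hcb : closedBall y (ρ / 4) ⊆ ball y ρ := closedBall_subset_ball (by linarith)
  have hF := addHaar_image_le_lintegral_abs_det_fderiv volume hm (f := g)
    (f' := dd g) (fun x hx =>
      (dd_has (hg.differentiableAt (isOpen_ball.mem_nhds (hcb hx.2)))).hasFDerivWithinAt)
  calc volume (g '' Z) ≤ volume (g '' Z') := measure_mono (image_mono hsub)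
    _ ≤ _ := hF
    _ ≤ ∫⁻ _ in Z', ENNReal.ofReal (B ^ 2) := by
        refine setLIntegral_mono measurable_const fun x hx => ?_
        apply ENNReal.ofReal_le_ofReal
        rw [dd_det]
        have h2 : ‖x - y‖ ≤ ρ / 4 := by
          rw [← dist_eq_norm]
          exact hx.2
        exact pow_le_pow_left₀ (norm_nonneg _) (hd x h2) 2
    _ = ENNReal.ofReal (B ^ 2) * volume Z' := by rw [setLIntegral_const]
    _ ≤ _ := by gcongr

theorem t_MEAS (hU' : S_UNIQ) : S_MEAS := by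
  obtain ⟨C0, c0, K⟩ := exists_KC
  have hC0 : 0 < C0 := lt_of_lt_of_le one_pos K.one_le
  have hc0 := K.pos
  have hπ := Real.pi_pos
  refine ⟨C0 ^ 2 / (c0 ^ 2 * Real.pi), by positivity, ?_⟩
  intro f U hU hf n y ρ hρ X Y Z hZ hX
  have hy : y ∈ ball y ρ := mem_ball_self hρ
  have hcb : closedBall y (ρ / 4) ⊆ ball y ρ := closedBall_subset_ball (by linarith)
  set I : Set ℂ := {p | ∃ g, IsBr f U n y ρ g ∧ g y = p ∧ g '' ball y ρ ⊆ Y} with hI
  choose G hG using fun p : I => p.2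
  have hsub : X ⊆ ⋃ p : I, G p '' Z := by
    intro z hz
    obtain ⟨g, hg, ⟨x, hx, hxz⟩, hgY⟩ := hX z hz
    refine mem_iUnion.2 ⟨⟨g y, g, hg, rfl, hgY⟩, x, hx, ?_⟩
    rw [← hxz]
    have h1 := hG ⟨g y, g, hg, rfl, hgY⟩
    have hxb : x ∈ ball y ρ := hcb (hZ hx)
    exact hU' f U hU hf n y y ρ ρ _ g h1.1 hg y ⟨hy, hy⟩ h1.2.1 x ⟨hxb, hxb⟩
  -- the small balls in the images
  set d : I → ℝ := fun p => ‖deriv (G p) y‖ with hd
  have hd0 : ∀ p, 0 < d p := by
    intro p
    refine norm_pos_iff.2 fun h0 => ?_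
    have h1 := br_deriv hU hf (hG p).1 hy
    rw [h0, mul_zero] at h1
    exact zero_ne_one h1
  set B : I → Set ℂ := fun p => ball (p : ℂ) (c0 * ρ * d p) with hB
  have hBsub : ∀ p, B p ⊆ G p '' ball y ρ := by
    intro p a ha
    by_contra hcon
    have h1 := K.komit (G p) y ρ hρ (br_univ (hG p).1) a (fun w hw hwa => hcon ⟨w, hw, hwa⟩)
    rw [(hG p).2.1] at h1
    rw [hB, mem_ball, dist_comm, dist_eq_norm] at ha
    exact absurd ha (not_lt.2 h1)
  have hdisj : Pairwise (Function.onFun Disjoint B) := by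
    intro p q hpq
    refine Set.disjoint_left.2 fun a hap haq => ?_
    obtain ⟨u, hu, hua⟩ := hBsub p hap
    obtain ⟨v, hv, hva⟩ := hBsub q haq
    have huv : u = v := by
      rw [← ((hG p).1.2 u hu).2, ← ((hG q).1.2 v hv).2, hua, hva]
    apply hpq
    have h1 := hU' f U hU hf n y y ρ ρ (G p) (G q) (hG p).1 (hG q).1 u
      ⟨hu, by rw [huv]; exact hv⟩ (by rw [hua, huv, hva]) y ⟨hy, hy⟩
    rw [(hG p).2.1, (hG q).2.1] at h1
    exact Subtype.ext h1
  have hcount : Countable I := by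
    have h1 : (univ : Set I).PairwiseDisjoint B := fun p _ q _ hpq => hdisj hpq
    have h2 := h1.countable_of_isOpen (fun p _ => isOpen_ball)
      (fun p _ => ⟨(p : ℂ), mem_ball_self (by have := hd0 p; positivity)⟩)
    exact Set.countable_univ_iff.1 h2
  have hvolB : ∀ p, volume (B p) = ENNReal.ofReal ((c0 * ρ * d p) ^ 2 * Real.pi) := by
    intro p
    have h0 : 0 ≤ c0 * ρ * d p := by
      have := hd0 p
      positivity
    rw [hB, Complex.volume_ball, ← ENNReal.ofReal_pow h0,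
      ENNReal.ofReal_mul (pow_nonneg h0 2)]
    congr 1
    rw [← NNReal.coe_real_pi, ENNReal.ofReal_coe_nnreal]
  have himg : ∀ p, volume (G p '' Z) ≤
      ENNReal.ofReal (C0 ^ 2 / (c0 ^ 2 * Real.pi) / ρ ^ 2) * volume Z * volume (B p) := by
    intro p
    have h1 := image_le (g := G p) hρ (B := C0 * d p)
      (hG p).1.1 (fun w hw => (K.kdist (G p) y ρ hρ (br_univ (hG p).1) w hw).1) hZ
    refine h1.trans (le_of_eq ?_)
    rw [hvolB p, mul_right_comm, ← ENNReal.ofReal_mul (by positivity)]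
    congr 2
    field_simp
  calc volume X ≤ volume (⋃ p : I, G p '' Z) := measure_mono hsub
    _ ≤ ∑' p : I, volume (G p '' Z) := measure_iUnion_le _
    _ ≤ ∑' p : I, ENNReal.ofReal (C0 ^ 2 / (c0 ^ 2 * Real.pi) / ρ ^ 2) * volume Z *
          volume (B p) := ENNReal.tsum_le_tsum himg
    _ = ENNReal.ofReal (C0 ^ 2 / (c0 ^ 2 * Real.pi) / ρ ^ 2) * volume Z *
          ∑' p : I, volume (B p) := ENNReal.tsum_mul_left
    _ = ENNReal.ofReal (C0 ^ 2 / (c0 ^ 2 * Real.pi) / ρ ^ 2) * volume Z *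
          volume (⋃ p : I, B p) := by
        rw [measure_iUnion hdisj fun p => isOpen_ball.measurableSet]
    _ ≤ _ := by
        gcongr
        exact iUnion_subset fun p => (hBsub p).trans (hG p).2.2

end Pool.Agent.H44.AD211
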