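import Pool.Agent.H211.AD.Stm
import Pool.Agent.H44.AD211.MEAS
import Pool.Graph.R_seed8.Y298.CE.Kmar

/-! Task HIT of project AD (helper211), by helper44: the hit lemma. -/

set_option autoImplicit false

open Metric Set MeasureTheory Filter Topology

namespace Pool.Agent.H44.AD211

open Pool.Agent.H211.AD
open Pool.Agent.W746.LD (Univ KC exists_KC)
open Pool.Agent.Y298.SH.CE (MG RR exists_MG)

theorem fin_min (s : Finset ℂ) (F : ℂ → ℝ) (h : ∀ c ∈ s, 0 < F c) :
    ∃ m > 0, ∀ c ∈ s, m ≤ F c := by
  classical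
  induction s using Finset.induction_on with
  | empty => exact ⟨1, one_pos, by simp⟩
  | insert a s _ ih =>
    obtain ⟨m, hm, hms⟩ := ih fun c hc => h c (Finset.mem_insert_of_mem hc)
    refine ⟨min m (F a), lt_min hm (h a (Finset.mem_insert_self a s)), fun c hc => ?_⟩
    rcases Finset.mem_insert.1 hc with rfl | hc
    · exact min_le_right _ _
    · exact (min_le_left _ _).trans (hms c hc)

/-- extension of a branch by one step -/
theorem br_succ {f : ℂ → ℂ} {U : Set ℂ} {j : ℕ} {w : ℂ} {R : ℝ} {g G : ℂ → ℂ}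
    (hg : ∀ x ∈ ball w R, (∀ i < j, f^[i] (g x) ∈ U) ∧ f^[j] (g x) = x)
    (hG : DifferentiableOn ℂ G (ball w R)) (hGf : ∀ x ∈ ball w R, G x ∈ U ∧ f (G x) = g x) :
    IsBr f U (j + 1) w R G := by
  refine ⟨hG, fun x hx => ⟨fun i hi => ?_, ?_⟩⟩
  · rcases i with _ | i
    · exact (hGf x hx).1
    · rw [Function.iterate_succ_apply, (hGf x hx).2]
      exact (hg x hx).1 i (by omega)
  · rw [Function.iterate_succ_apply, (hGf x hx).2]
    exact (hg x hx).2

theorem t_HIT (hLS : S_LS) (hUQ : S_UNIQ) : S_HIT := by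
  intro f U K Cr ℓ δ₀ Cp rp c₀ μ hS θ hθ1 hθμ
  obtain ⟨C0, c0, KK⟩ := exists_KC
  obtain ⟨τ, A, G⟩ := exists_MG KK hθ1
  have hA : 0 < A := lt_of_lt_of_le one_pos G.A1
  have hθ0 : 0 < θ := by linarith
  have hμ0 : 0 < μ := by linarith
  refine ⟨4 * A, by positivity, ?_⟩
  intro r' hr'
  set r : ℝ := min r' rp with hr
  have hr0 : 0 < r := lt_min hr' hS.rp_pos
  have hrr' : r ≤ r' := min_le_left _ _
  have hrrp : r ≤ rp := min_le_right _ _
  obtain ⟨δ₁, hδ₁, hback⟩ := hS.back δ₀ hS.δ₀_pos
  obtain ⟨s₀, hs₀, hls⟩ := hLS f U K Cr ℓ δ₀ Cp rp c₀ μ hS r hr0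
  have hCp : 0 < Cp := lt_of_lt_of_le one_pos hS.Cp_ge
  have hc₀ := hS.c₀_pos
  obtain ⟨m, hm0, hm⟩ := fin_min Cr (fun c => r ^ ℓ c / Cp) (fun c _ => by positivity)
  set M : ℝ := min s₀ m with hM
  have hM0 : 0 < M := lt_min hs₀ hm0
  set R₁ : ℝ := min (min (δ₁ / 3) (δ₀ / 3)) (M * c₀ / (8 * A)) with hR₁
  have hδ₀ := hS.δ₀_pos
  have hR₁0 : 0 < R₁ := by positivity
  have hR₁a : 3 * R₁ ≤ δ₁ := by
    have : R₁ ≤ δ₁ / 3 := (min_le_left _ _).trans (min_le_left _ _)
    linarith
  have hR₁b : 3 * R₁ ≤ δ₀ := by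
    have : R₁ ≤ δ₀ / 3 := (min_le_left _ _).trans (min_le_right _ _)
    linarith
  have hR₁c : 4 * A * R₁ / c₀ < M := by
    have h1 : R₁ ≤ M * c₀ / (8 * A) := min_le_right _ _
    rw [le_div_iff₀ (by positivity)] at h1
    rw [div_lt_iff₀ hc₀]
    have h2 : 0 < M * c₀ := by positivity
    linarith
  refine ⟨R₁, hR₁0, ?_⟩
  intro n z R hR hRR hzU hzK
  set w : ℂ := f^[n] z with hw
  -- points of the big ball
  have hnear : ∀ x : ℂ, ‖x - w‖ < 2 * R → x ∈ cthickening (3 * R₁) K := by
    intro x hx
    have h1 : cthickening (2 * R₁) (cthickening R₁ K) ⊆ cthickening (2 * R₁ + R₁) K :=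
      cthickening_cthickening_subset (by positivity) hR₁0.le K
    have h2 : x ∈ cthickening (2 * R₁) (cthickening R₁ K) := by
      refine mem_cthickening_of_dist_le x w _ _ hzK ?_
      rw [dist_eq_norm]
      linarith
    have h3 := h1 h2
    rwa [show 2 * R₁ + R₁ = 3 * R₁ by ring] at h3
  have hnear1 : ∀ x : ℂ, ‖x - w‖ < 2 * R → x ∈ cthickening δ₁ K := fun x hx =>
    cthickening_mono hR₁a K (hnear x hx)
  have hnear0 : ∀ x : ℂ, ‖x - w‖ < 2 * R → x ∈ cthickening δ₀ K := fun x hx =>
    cthickening_mono hR₁b K (hnear x hx)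
  -- the hit at the time `j` with `c`
  set Hit : ℕ → Prop := fun j => ∃ c ∈ Cr, ‖f^[j] (f c) - w‖ < 2 * R ∧
          (‖f^[n - (j + 1)] z - c‖ < r' ∧
            ‖f^[n - j] z - f c‖ ≤ 4 * A * θ ^ j * R / ‖deriv f^[j] (f c)‖) ∧
          ∀ (y' : ℂ) (R' : ℝ) (g : ℂ → ℂ), ball y' R' ⊆ ball w R → w ∈ ball y' R' →
            IsBr f U n y' R' g → g w = z → ∀ x ∈ ball y' R',
              ‖f^[n - (j + 1)] (g x) - c‖ < r' ∧
                ‖f^[n - j] (g x) - f c‖ ≤ 4 * A * θ ^ j * R / ‖deriv f^[j] (f c)‖ with hHit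
  have key : ∀ j ≤ n, (∃ g, IsBr f U j w (RR R τ j) g ∧ g w = f^[n - j] z) ∨
      ∃ i < n, Hit i := by
    intro j
    induction j with
    | zero =>
      intro _
      exact Or.inl ⟨id, ⟨differentiableOn_id, fun x _ => ⟨fun i hi => absurd hi (Nat.not_lt_zero i),
        rfl⟩⟩, rfl⟩
    | succ j ih =>
      intro hj
      rcases ih (by omega) with ⟨g, hg, hgw⟩ | hhit
      swap
      · exact Or.inr hhit
      have hsub : ball w (RR R τ (j + 1)) ⊆ ball w (RR R τ j) := G.RR_ball hR j w
      have hRRp : 0 < RR R τ (j + 1) := G.RR_pos hR (j + 1)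
      have hw1 : w ∈ ball w (RR R τ (j + 1)) := mem_ball_self hRRp
      have hb2 : ∀ k, ∀ x ∈ ball w (RR R τ k), ‖x - w‖ < 2 * R := by
        intro k x hx
        rw [mem_ball, dist_eq_norm] at hx
        exact hx.trans_le (G.RR_le hR k)
      have hu : Univ g w (RR R τ j) := br_univ hg
      -- `g` maps the ball into the neighbourhood of `K`
      have hgK : ∀ x ∈ ball w (RR R τ j), g x ∈ cthickening δ₀ K := by
        intro x hx
        refine hback j ⟨(hg.2 x hx).1, ?_⟩
        rw [(hg.2 x hx).2]
        exact hnear1 x (hb2 j x hx)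
      -- the next point
      set z₁ : ℂ := f^[n - (j + 1)] z with hz₁
      have hfz₁ : f z₁ = g w := by
        rw [hgw, hz₁, ← Function.iterate_succ_apply' f, Nat.succ_eq_add_one,
          show n - (j + 1) + 1 = n - j by omega]
      have hz₁U : z₁ ∈ U := hzU _ (by omega)
      have hz₁K : z₁ ∈ cthickening δ₀ K := by
        refine hback (j + 1) ⟨fun i hi => ?_, ?_⟩
        · rw [hz₁, ← Function.iterate_add_apply]
          exact hzU _ (by omega)
        · rw [hz₁, ← Function.iterate_add_apply, show j + 1 + (n - (j + 1)) = n by omega]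
          exact hnear1 w (by rw [sub_self, norm_zero]; positivity)
      by_cases hcase : ∃ c ∈ Cr, ∃ u ∈ ball w (RR R τ (j + 1)), g u = f c
      · obtain ⟨c, hc, u, hu1, hgu⟩ := hcase
        have huj : u ∈ ball w (RR R τ j) := hsub hu1
        have hfc : f^[j] (f c) = u := by
          rw [← hgu]
          exact (hg.2 u huj).2
        have hder := br_deriv hS.openU hS.diff hg huj
        rw [hgu] at hder
        have hce := hS.ce c hc j
        have hD0 : 0 < ‖deriv f^[j] (f c)‖ := lt_of_lt_of_le (by positivity) hce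
        have hdg : ‖deriv g u‖ = 1 / ‖deriv f^[j] (f c)‖ := by
          rw [eq_div_iff hD0.ne', mul_comm, ← norm_mul, hder, norm_one]
        have hup : ∀ x ∈ ball w (RR R τ (j + 1)),
            ‖g x - f c‖ ≤ 4 * A * θ ^ j * R / ‖deriv f^[j] (f c)‖ := by
          intro x hx
          have h1 := G.upper KK hR hu hx hu1
          rw [hgu, hdg] at h1
          refine h1.trans ?_
          have h2 : ‖x - u‖ ≤ 4 * R := by
            have h3 := hb2 _ x hx
            have h4 := hb2 _ u hu1
            calc ‖x - u‖ = ‖(x - w) - (u - w)‖ := by congr 1; ring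
              _ ≤ ‖x - w‖ + ‖u - w‖ := norm_sub_le _ _
              _ ≤ 4 * R := by linarith
          calc A * θ ^ j * (1 / ‖deriv f^[j] (f c)‖) * ‖x - u‖
              ≤ A * θ ^ j * (1 / ‖deriv f^[j] (f c)‖) * (4 * R) := by gcongr
            _ = _ := by ring
        have hsm : 4 * A * θ ^ j * R / ‖deriv f^[j] (f c)‖ < M := by
          refine lt_of_le_of_lt ?_ hR₁c
          rw [div_le_div_iff₀ hD0 hc₀]
          have h1 : θ ^ j ≤ μ ^ j := pow_le_pow_left₀ hθ0.le hθμ.le j
          calc 4 * A * θ ^ j * R * c₀ ≤ 4 * A * μ ^ j * R₁ * c₀ := by gcongr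
            _ = 4 * A * R₁ * (c₀ * μ ^ j) := by ring
            _ ≤ 4 * A * R₁ * ‖deriv f^[j] (f c)‖ := by gcongr
        have hs1 : ∀ x ∈ ball w (RR R τ (j + 1)), ‖g x - f c‖ < s₀ := fun x hx =>
          lt_of_lt_of_le ((hup x hx).trans_lt hsm) (min_le_left _ _)
        rcases hls c hc z₁ hz₁K (by rw [hfz₁]; exact hs1 w hw1) with
          ⟨c', hc', hfc', hzc'⟩ | ⟨ψ, hψd, hψz, hψ⟩
        · -- a hit
          right
          refine ⟨j, by omega, c', hc', ?_, ⟨hzc'.trans_le hrr', ?_⟩, ?_⟩
          · rw [hfc', hfc]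
            exact hb2 _ u hu1
          · rw [hfc', ← hgw]
            exact hup w hw1
          · intro y' R' g' hby hwy hg' hg'w
            have hbr : IsBr f U j y' R' (fun x => f^[n - j] (g' x)) := by
              refine ⟨fun x hx => ?_, fun x hx => ⟨fun i hi => ?_, ?_⟩⟩
              · have h1 : DifferentiableAt ℂ g' x :=
                  hg'.1.differentiableAt (isOpen_ball.mem_nhds hx)
                have h2 : DifferentiableAt ℂ f^[n - j] (g' x) :=
                  iter_diff hS.openU hS.diff _ fun i hi => (hg'.2 x hx).1 i (by omega)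
                exact (h2.comp x h1).differentiableWithinAt
              · rw [← Function.iterate_add_apply]
                exact (hg'.2 x hx).1 _ (by omega)
              · rw [← Function.iterate_add_apply, show j + (n - j) = n by omega]
                exact (hg'.2 x hx).2
            have hsubw : ball y' R' ⊆ ball w (RR R τ (j + 1)) :=
              hby.trans (ball_subset_ball (G.RR_gt hR (j + 1)).le)
            have heq : ∀ x ∈ ball y' R', f^[n - j] (g' x) = g x := by
              intro x hx
              exact hUQ f U hS.openU hS.diff j y' w R' (RR R τ j) _ g hbr hg w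
                ⟨hwy, hsub hw1⟩ (by rw [hg'w, hgw]) x ⟨hx, hsub (hsubw hx)⟩
            have hbd : ∀ x ∈ ball y' R',
                ‖f^[n - j] (g' x) - f c'‖ ≤ 4 * A * θ ^ j * R / ‖deriv f^[j] (f c')‖ := by
              intro x hx
              rw [heq x hx, hfc']
              exact hup x (hsubw hx)
            have hcont : ContinuousOn (fun x => ‖f^[n - (j + 1)] (g' x) - c'‖) (ball y' R') := by
              intro x hx
              have h1 : DifferentiableAt ℂ g' x :=
                hg'.1.differentiableAt (isOpen_ball.mem_nhds hx)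
              have h2 : DifferentiableAt ℂ f^[n - (j + 1)] (g' x) :=
                iter_diff hS.openU hS.diff _ fun i hi => (hg'.2 x hx).1 i (by omega)
              have h3 : ContinuousAt (fun x => f^[n - (j + 1)] (g' x)) x :=
                (h2.comp x h1).continuousAt
              exact ((h3.sub continuousAt_const).norm).continuousWithinAt
            have hne : ∀ x ∈ ball y' R', ‖f^[n - (j + 1)] (g' x) - c'‖ ≠ r := by
              intro x hx hxr
              have h1 := (hS.loc c' hc' (f^[n - (j + 1)] (g' x)) (by rw [hxr]; exact hrrp)).2.2.1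
              rw [hxr, ← Function.iterate_succ_apply' f, Nat.succ_eq_add_one,
                show n - (j + 1) + 1 = n - j by omega] at h1
              have h2 := hbd x hx
              have h3 : 4 * A * θ ^ j * R / ‖deriv f^[j] (f c')‖ < r ^ ℓ c' / Cp := by
                rw [hfc']
                exact hsm.trans_le ((min_le_right _ _).trans (hm c' hc'))
              rw [lt_div_iff₀ hCp] at h3
              have h4 : Cp * ‖f^[n - j] (g' x) - f c'‖ ≤
                  Cp * (4 * A * θ ^ j * R / ‖deriv f^[j] (f c')‖) :=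
                mul_le_mul_of_nonneg_left h2 hCp.le
              linarith
            intro x hx
            refine ⟨?_, hbd x hx⟩
            refine lt_of_lt_of_le ?_ hrr'
            by_contra hcon
            rw [not_lt] at hcon
            have h1 := (convex_ball y' R').isPreconnected.intermediate_value hwy hx hcont
            have h2 : ‖f^[n - (j + 1)] (g' w) - c'‖ < r := by
              rw [hg'w]
              exact hzc'
            obtain ⟨v, hv, hvr⟩ := h1 ⟨h2.le, hcon⟩
            exact hne v hv hvr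
        · -- an inverse near the critical value
          left
          refine ⟨fun x => ψ (g x), ?_, ?_⟩
          · refine br_succ (g := g) (fun x hx => hg.2 x (hsub hx)) ?_ fun x hx => ?_
            · refine hψd.comp (hg.1.mono hsub) fun x hx => ?_
              rw [mem_ball, dist_eq_norm]
              exact hs1 x hx
            · refine hψ (g x) ?_
              rw [mem_ball, dist_eq_norm]
              exact hs1 x hx
          · change ψ (g w) = z₁
            rw [← hfz₁]
            exact hψz
      · -- no critical value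
        left
        obtain ⟨G', hG'd, hG'w, hG'⟩ := hS.lift g w (RR R τ (j + 1)) hRRp (hg.1.mono hsub)
          (fun x hx => hgK x (hsub hx)) (by
            rintro z' hz'U ⟨u, hu1, huz⟩ hd0
            have huj := hsub hu1
            rcases hS.crit z' hz'U hd0 with h1 | h1
            · exact hcase ⟨z', h1, u, hu1, huz⟩
            · refine h1 (j + 1) ⟨fun i hi => ?_, ?_⟩
              · rcases i with _ | i
                · exact hz'U
                · rw [Function.iterate_succ_apply, ← huz]
                  exact (hg.2 u huj).1 i (by omega)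
              · rw [Function.iterate_succ_apply, ← huz, (hg.2 u huj).2]
                exact hnear0 u (hb2 _ u hu1)) z₁ hz₁U hfz₁
        exact ⟨G', br_succ (g := g) (fun x hx => hg.2 x (hsub hx)) hG'd hG', hG'w⟩
  rcases key n le_rfl with ⟨g, hg, hgw⟩ | ⟨i, hi, hhit⟩
  · left
    have hsub : ball w R ⊆ ball w (RR R τ n) := ball_subset_ball (G.RR_gt hR n).le
    refine ⟨g, ⟨hg.1.mono hsub, fun x hx => hg.2 x (hsub hx)⟩, ?_⟩
    rw [hgw, Nat.sub_self]
    rfl
  · exact Or.inr ⟨i, hi, hhit⟩

end Pool.Agent.H44.AD211
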